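import Pool.Agent.H69.Spl2

namespace Pool.Agent.Results.MP_4681e4_al.Amalgam

open Pool.Agent.H69.Spl

theorem result :
    (∃ (G : Type) (_ : Group G) (A : Subgroup G) (B C : ℕ → Subgroup G), Group.FG G ∧
      (∀ n, IsAmalgam A (B n) (C n) ∧ C n ≠ A ∧ C n ≠ B n ∧ Slender (C n)) ∧
      (∀ n, C n < C (n + 1)) ∧
      ¬∃ B' C' : Subgroup G, IsAmalgam A B' C' ∧ ∀ n, C' < C n) ∧
    (∃ (G : Type) (_ : Group G) (A : Subgroup G) (B C : ℕ → Subgroup G), Group.FG G ∧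
      (∀ n, IsAmalgam A (B n) (C n) ∧ C n ≠ A ∧ C n ≠ B n ∧ Slender (C n)) ∧
      (∀ n, C (n + 1) < C n) ∧
      ¬∃ B' C' : Subgroup G, IsAmalgam A B' C' ∧ ∀ n, ∃ a ∈ A, ∀ c ∈ C', a * c * a⁻¹ ∈ C n) := by
  obtain ⟨G, _, A, B, C, h1, h2, h3, h4⟩ := asc
  obtain ⟨G', _, A', B', C', g1, g2, g3, g4⟩ := desc1
  exact ⟨⟨G, inferInstance, A, B, C, h1, fun n => ⟨(h2 n).1.1, (h2 n).1.2.1, (h2 n).1.2.2, (h2 n).2.2⟩,
    fun n => h3 n.lt_succ_self, fun ⟨X, Y, a, b⟩ => (h4 Y (b 0)).2 X a⟩,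
    G', inferInstance, A', B', C', g1, g2, fun n => g3 n.lt_succ_self, g4⟩

end Pool.Agent.Results.MP_4681e4_al.Amalgam
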