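import Pool.Agent.H69.Spl2

namespace Pool.Agent.Results.MP_4681e4_al.Hnn

open Pool.Agent.H69.Spl

theorem result :
    (∃ (G : Type) (_ : Group G) (C : ℕ → Subgroup G), Group.FG G ∧
      (∀ n, IsHNN (C n) ∧ Slender (C n)) ∧ (∀ n, C n < C (n + 1)) ∧
      ¬∃ C' : Subgroup G, IsHNN C' ∧ ∀ n, C' < C n) ∧
    (∃ (G : Type) (_ : Group G) (C : ℕ → Subgroup G), Group.FG G ∧
      (∀ n, IsHNN (C n) ∧ Slender (C n)) ∧ (∀ n, C (n + 1) < C n) ∧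
      ¬∃ C' : Subgroup G, IsHNN C' ∧ ∀ n, C' ≤ C n) := by
  obtain ⟨G, _, A, B, C, h1, h2, h3, h4⟩ := asc
  obtain ⟨G', _, C', g1, g2, g3, g4⟩ := desc2
  exact ⟨⟨G, inferInstance, C, h1, fun n => (h2 n).2, fun n => h3 n.lt_succ_self,
    fun ⟨Y, a, b⟩ => (h4 Y (b 0)).1 a⟩,
    G', inferInstance, C', g1, g2, fun n => g3 n.lt_succ_self, g4⟩

end Pool.Agent.Results.MP_4681e4_al.Hnn
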